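import Mathlib

/-!
# Folded quasi-isometric embeddings `X → X × ℝ` for all real hyperbolic spaces and their products

For every real hyperbolic space `ℍ(E)` (upper half-space model over a real inner product space `E ≠ 0`,
so all `ℍⁿ`, `n ≥ 2`, and also the infinite-dimensional ones) and every metric space `Z`, the space
`X = ℍ(E) × Z` has a continuum of quasi-isometric embeddings `X → X × ℝ`, none of which has its image
at finite Hausdorff distance from the graph of any function `X → ℝ`, and which have images at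
pairwise infinite Hausdorff distance. The same is true for `X = Y × Z`, for every metric space `Y`
with a reflection.
-/

set_option autoImplicit false

namespace Pool.Agent.Results.MP_44e237_gt.EveryHyperbolicSpace

open scoped InnerProductSpace

universe u v w

/-- `d` is a metric. -/
structure IsMetric {Y : Type u} (d : Y → Y → ℝ) : Prop where
  eq_zero : ∀ x y, d x y = 0 ↔ x = y
  symm : ∀ x y, d x y = d y x
  tri : ∀ x y z, d x z ≤ d x y + d y z

/-- The product metric `√(d² + d'²)`. -/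
noncomputable def prodDist {Y : Type u} {Z : Type v} (d : Y → Y → ℝ) (d' : Z → Z → ℝ)
    (p q : Y × Z) : ℝ :=
  √(d p.1 q.1 ^ 2 + d' p.2 q.2 ^ 2)

/-- The product metric on `X × ℝ`, for a metric `d` on `X`. -/
noncomputable def lineDist {X : Type u} (d : X → X → ℝ) (p q : X × ℝ) : ℝ :=
  √(d p.1 q.1 ^ 2 + (p.2 - q.2) ^ 2)

/-- `f` is a quasi-isometric embedding. -/
def IsQI {A : Type u} {B : Type v} (dA : A → A → ℝ) (dB : B → B → ℝ) (f : A → B) : Prop :=
  ∃ L C : ℝ, 1 ≤ L ∧ 0 ≤ C ∧ ∀ a a' : A, L⁻¹ * dA a a' - C ≤ dB (f a) (f a') ∧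
    dB (f a) (f a') ≤ L * dA a a' + C

/-- The sets `S` and `T` are at finite Hausdorff distance. -/
def FiniteHausdorff {B : Type u} (dB : B → B → ℝ) (S T : Set B) : Prop :=
  ∃ R : ℝ, (∀ s ∈ S, ∃ t ∈ T, dB s t ≤ R) ∧ ∀ t ∈ T, ∃ s ∈ S, dB t s ≤ R

/-- There is a family `f c`, `c > 0`, of quasi-isometric embeddings `X → X × ℝ` such that no image is
at finite Hausdorff distance from the graph of a function `X → ℝ` (Lipschitz or not), and no two
images are at finite Hausdorff distance from each other. -/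
def ManyEmbeddings {X : Type u} (d : X → X → ℝ) : Prop :=
  ∃ f : ℝ → X → X × ℝ,
    (∀ c, 0 < c → IsQI d (lineDist d) (f c)) ∧
    (∀ c, 0 < c → ∀ h : X → ℝ,
      ¬ FiniteHausdorff (lineDist d) (Set.range (f c)) {p | p.2 = h p.1}) ∧
    ∀ c c', 0 < c → 0 < c' → c ≠ c' →
      ¬ FiniteHausdorff (lineDist d) (Set.range (f c)) (Set.range (f c'))

/-- `σ` is a reflection of the metric space `(Y, d)` with half space `A`: an isometric involution
such that `A` and `σ A` cover `Y`, points of `A` are not farther from each other than from each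
other's mirror images, and the points of `A` are moved arbitrarily far. -/
structure IsReflection {Y : Type u} (d : Y → Y → ℝ) (A : Set Y) (σ : Y → Y) : Prop where
  isometry : ∀ x y, d (σ x) (σ y) = d x y
  involutive : ∀ x, σ (σ x) = x
  cover : ∀ x, x ∈ A ∨ σ x ∈ A
  fold : ∀ a ∈ A, ∀ b ∈ A, d a b ≤ d a (σ b)
  deep : ∀ R : ℝ, ∃ a ∈ A, R < d a (σ a)

/-- The metric of curvature `-1` of the real hyperbolic space over `E`, in the upper half-space
`E × (0, ∞)`: `d((x,s),(y,t)) = 2 arsinh (√(‖x - y‖² + (s - t)²) / (2 √(s t)))`. For `E = ℝⁿ` it is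
the hyperbolic space of dimension `n + 1`. -/
noncomputable def hypDist {E : Type u} [NormedAddCommGroup E] (p q : E × Set.Ioi (0 : ℝ)) : ℝ :=
  2 * Real.arsinh (√(‖p.1 - q.1‖ ^ 2 + ((p.2 : ℝ) - q.2) ^ 2) / (2 * √((p.2 : ℝ) * q.2)))

/-! ## Folding -/

section fold

variable {Y : Type u} {d : Y → Y → ℝ} {A : Set Y} {σ : Y → Y}

theorem IsMetric.nonneg (hd : IsMetric d) (x y : Y) : 0 ≤ d x y := by
  have h1 := hd.tri x y x
  rw [(hd.eq_zero x x).2 rfl, hd.symm y x] at h1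
  linarith

open Classical in
/-- the folding -/
noncomputable def fo (A : Set Y) (σ : Y → Y) (z : Y) : Y := if z ∈ A then z else σ z

open Classical in
/-- the height -/
noncomputable def he (d : Y → Y → ℝ) (A : Set Y) (σ : Y → Y) (c : ℝ) (z : Y) : ℝ :=
  if z ∈ A then 0 else c * d z (σ z)

theorem fo_mem (h : IsReflection d A σ) (z : Y) : fo A σ z ∈ A := by
  unfold fo
  split_ifs with h1
  · exact h1
  · exact (h.cover z).resolve_left h1

theorem mirror (h : IsReflection d A σ) {a b : Y} (ha : a ∈ A) (hb : σ b ∈ A) :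
    d a (σ b) ≤ d a b := by
  have := h.fold a ha (σ b) hb
  rwa [h.involutive] at this

theorem fo_lip (hd : IsMetric d) (h : IsReflection d A σ) (z w : Y) :
    d (fo A σ z) (fo A σ w) ≤ d z w := by
  unfold fo
  split_ifs with h1 h2 h2
  · exact le_rfl
  · exact mirror h h1 ((h.cover w).resolve_left h2)
  · rw [hd.symm (σ z) w, hd.symm z w]
    exact mirror h h2 ((h.cover z).resolve_left h1)
  · exact (h.isometry z w).le

theorem he_lip (hd : IsMetric d) (h : IsReflection d A σ) {c : ℝ} (hc : 0 < c) (z w : Y) :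
    |he d A σ c z - he d A σ c w| ≤ 2 * c * d z w := by
  unfold he
  split_ifs with h1 h2 h2
  · rw [sub_zero, abs_zero]
    exact mul_nonneg (by linarith) (hd.nonneg z w)
  · rw [zero_sub, abs_neg, abs_of_nonneg (mul_nonneg hc.le (hd.nonneg _ _))]
    have a := mirror h h1 ((h.cover w).resolve_left h2)
    have b := hd.tri w z (σ w)
    rw [hd.symm w z] at b
    nlinarith
  · rw [sub_zero, abs_of_nonneg (mul_nonneg hc.le (hd.nonneg _ _))]
    have a := mirror h h2 ((h.cover z).resolve_left h1)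
    have b := hd.tri z w (σ z)
    rw [hd.symm w z] at a
    nlinarith
  · rw [← mul_sub, abs_mul, abs_of_pos hc]
    have key : |d z (σ z) - d w (σ w)| ≤ 2 * d z w := by
      rw [abs_le]
      have a := hd.tri z w (σ z)
      have b := hd.tri w (σ w) (σ z)
      have c := hd.tri w z (σ w)
      have e := hd.tri z (σ z) (σ w)
      rw [h.isometry, hd.symm w z] at b
      rw [h.isometry] at e
      rw [hd.symm w z] at c
      constructor <;> linarith
    nlinarith

theorem lower (hd : IsMetric d) (h : IsReflection d A σ) {c : ℝ} (hc : 0 < c) (z w : Y) :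
    d z w ≤ d (fo A σ z) (fo A σ w) + c⁻¹ * |he d A σ c z - he d A σ c w| := by
  unfold fo he
  split_ifs with h1 h2 h2
  · simp
  · rw [zero_sub, abs_neg, abs_of_nonneg (mul_nonneg hc.le (hd.nonneg _ _)),
      inv_mul_cancel_left₀ hc.ne']
    have b := hd.tri z (σ w) w
    rw [hd.symm (σ w) w] at b
    exact b
  · rw [sub_zero, abs_of_nonneg (mul_nonneg hc.le (hd.nonneg _ _)), inv_mul_cancel_left₀ hc.ne']
    have b := hd.tri z (σ z) w
    linarith
  · rw [h.isometry]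
    have := mul_nonneg (inv_pos.2 hc).le (abs_nonneg (c * d z (σ z) - c * d w (σ w)))
    linarith

/-- the maps -/
noncomputable def ff (d : Y → Y → ℝ) (A : Set Y) (σ : Y → Y) (Z : Type v) (c : ℝ) (x : Y × Z) :
    (Y × Z) × ℝ := ((fo A σ x.1, x.2), he d A σ c x.1)

variable {Z : Type v} {d' : Z → Z → ℝ}

theorem lineDist_ff (c c' : ℝ) (x y : Y × Z) :
    lineDist (prodDist d d') (ff d A σ Z c x) (ff d A σ Z c' y) =
      √(d (fo A σ x.1) (fo A σ y.1) ^ 2 + d' x.2 y.2 ^ 2 +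
        (he d A σ c x.1 - he d A σ c' y.1) ^ 2) := by
  unfold lineDist ff prodDist
  rw [Real.sq_sqrt (by positivity)]

theorem isQI_ff (hd : IsMetric d) (h : IsReflection d A σ) {c : ℝ} (hc : 0 < c) :
    IsQI (prodDist d d') (lineDist (prodDist d d')) (ff d A σ Z c) := by
  have hci : 0 < c⁻¹ := inv_pos.2 hc
  set L : ℝ := 1 + 2 * c + c⁻¹ with hL
  have hL1 : 1 ≤ L := by linarith
  have hL0 : 0 < L := by linarith
  refine ⟨L, 0, hL1, le_rfl, fun x y => ?_⟩
  rw [lineDist_ff, sub_zero, add_zero]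
  set δ := d (fo A σ x.1) (fo A σ y.1) with hδ
  set Δ := he d A σ c x.1 - he d A σ c y.1 with hΔ
  set r := d x.1 y.1 with hr
  set s := d' x.2 y.2 with hs
  have a : δ ≤ r := fo_lip hd h x.1 y.1
  have b : |Δ| ≤ 2 * c * r := he_lip hd h hc x.1 y.1
  have e : r ≤ δ + c⁻¹ * |Δ| := lower hd h hc x.1 y.1
  have d0 : 0 ≤ δ := hd.nonneg _ _
  have e0 : 0 ≤ r := hd.nonneg _ _
  have b2 : Δ ^ 2 ≤ (2 * c * r) ^ 2 := by
    rw [← sq_abs]; exact pow_le_pow_left₀ (abs_nonneg _) b 2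
  have a2 : δ ^ 2 ≤ r ^ 2 := pow_le_pow_left₀ d0 a 2
  have c2 : r ^ 2 ≤ (1 + c⁻¹ ^ 2) * (δ ^ 2 + Δ ^ 2) := by
    have h1 := pow_le_pow_left₀ e0 e 2
    have h2 := sq_abs Δ
    nlinarith [sq_nonneg (|Δ| - c⁻¹ * δ)]
  have hLa : 1 + 4 * c ^ 2 ≤ L ^ 2 := by
    rw [hL]; nlinarith [mul_pos hc hci]
  have hLb : 1 + c⁻¹ ^ 2 ≤ L ^ 2 := by
    rw [hL]; nlinarith [mul_pos hc hci]
  have hp : prodDist d d' x y = √(r ^ 2 + s ^ 2) := rfl
  rw [hp]
  constructor
  · rw [inv_mul_le_iff₀ hL0]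
    have h2 : L * √(δ ^ 2 + s ^ 2 + Δ ^ 2) = √(L ^ 2 * (δ ^ 2 + s ^ 2 + Δ ^ 2)) := by
      rw [Real.sqrt_mul (by positivity), Real.sqrt_sq hL0.le]
    rw [h2]
    refine Real.sqrt_le_sqrt ?_
    have h3 : (1 + c⁻¹ ^ 2) * (δ ^ 2 + Δ ^ 2) ≤ L ^ 2 * (δ ^ 2 + Δ ^ 2) :=
      mul_le_mul_of_nonneg_right hLb (by positivity)
    have h4 : 1 * s ^ 2 ≤ L ^ 2 * s ^ 2 :=
      mul_le_mul_of_nonneg_right (one_le_pow₀ hL1) (sq_nonneg s)
    nlinarith
  · have h2 : L * √(r ^ 2 + s ^ 2) = √(L ^ 2 * (r ^ 2 + s ^ 2)) := by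
      rw [Real.sqrt_mul (by positivity), Real.sqrt_sq hL0.le]
    rw [h2]
    refine Real.sqrt_le_sqrt ?_
    have h3 : (1 + 4 * c ^ 2) * r ^ 2 ≤ L ^ 2 * r ^ 2 :=
      mul_le_mul_of_nonneg_right hLa (sq_nonneg r)
    have h4 : 1 * s ^ 2 ≤ L ^ 2 * s ^ 2 :=
      mul_le_mul_of_nonneg_right (one_le_pow₀ hL1) (sq_nonneg s)
    nlinarith

theorem far (hd : IsMetric d) (h : IsReflection d A σ) {a b : Y} (ha : a ∈ A) (hb : b ∈ A) :
    d a (σ a) ≤ 2 * d (σ a) b := by
  have h1 := h.fold b hb a ha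
  have h2 := hd.tri a b (σ a)
  rw [hd.symm b (σ a)] at h1 h2
  rw [hd.symm a b] at h2
  linarith

theorem not_graph (hd : IsMetric d) (h : IsReflection d A σ) [Nonempty Z] (c : ℝ)
    (g : Y × Z → ℝ) :
    ¬ FiniteHausdorff (lineDist (prodDist d d')) (Set.range (ff d A σ Z c))
      {p | p.2 = g p.1} := by
  rintro ⟨R, -, hR⟩
  obtain ⟨z0⟩ := ‹Nonempty Z›
  obtain ⟨a, ha, haR⟩ := h.deep (2 * R)
  obtain ⟨s, ⟨x, rfl⟩, hs⟩ := hR ((σ a, z0), g (σ a, z0)) rfl
  have h1 : d (σ a) (fo A σ x.1) ≤ R := by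
    refine le_trans ?_ hs
    refine Real.le_sqrt_of_sq_le ?_
    show _ ≤ prodDist d d' (σ a, z0) (fo A σ x.1, x.2) ^ 2 + _
    have h2 : prodDist d d' (σ a, z0) (fo A σ x.1, x.2) ^ 2 =
        d (σ a) (fo A σ x.1) ^ 2 + d' z0 x.2 ^ 2 := by
      unfold prodDist
      rw [Real.sq_sqrt (by positivity)]
    rw [h2]
    nlinarith [sq_nonneg (g (σ a, z0) - he d A σ c x.1), sq_nonneg (d' z0 x.2)]
  have h2 := far hd h ha (fo_mem h x.1)
  linarith

theorem disp_lip (hd : IsMetric d) (h : IsReflection d A σ) (z w : Y) :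
    |d z (σ z) - d w (σ w)| ≤ 2 * d z w := by
  rw [abs_le]
  have a := hd.tri z w (σ z)
  have b := hd.tri w (σ w) (σ z)
  have c := hd.tri w z (σ w)
  have e := hd.tri z (σ z) (σ w)
  rw [h.isometry, hd.symm w z] at b
  rw [h.isometry] at e
  rw [hd.symm w z] at c
  constructor <;> linarith

/-- the height over a point of `A` -/
theorem he_le (h : IsReflection d A σ) (hd : IsMetric d) {c : ℝ} (hc : 0 < c) (x : Y) :
    he d A σ c x ≤ c * d (fo A σ x) (σ (fo A σ x)) := by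
  unfold he fo
  split_ifs with h1
  · exact mul_nonneg hc.le (hd.nonneg _ _)
  · rw [h.involutive, hd.symm]

theorem not_close_aux (hd : IsMetric d) (h : IsReflection d A σ) [Nonempty Z] {c c' : ℝ}
    (hc : 0 < c) (hcc : c < c') (R : ℝ)
    (hR : ∀ t ∈ Set.range (ff d A σ Z c'), ∃ s ∈ Set.range (ff d A σ Z c),
      lineDist (prodDist d d') t s ≤ R) : False := by
  obtain ⟨z0⟩ := ‹Nonempty Z›
  obtain ⟨a, ha, haR⟩ := h.deep (max ((R + 2 * c * R) / (c' - c)) 0)
  have hd0 : 0 < d a (σ a) := lt_of_le_of_lt (le_max_right _ _) haR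
  have hdR : (R + 2 * c * R) / (c' - c) < d a (σ a) := lt_of_le_of_lt (le_max_left _ _) haR
  have hna : σ a ∉ A := by
    intro hA
    have h1 := h.fold (σ a) hA a ha
    rw [(hd.eq_zero (σ a) (σ a)).2 rfl, hd.symm] at h1
    linarith
  obtain ⟨s, ⟨x, rfl⟩, hs⟩ := hR _ ⟨(σ a, z0), rfl⟩
  rw [lineDist_ff] at hs
  have hfo : fo A σ (σ a) = a := by unfold fo; rw [if_neg hna, h.involutive]
  have hhe : he d A σ c' (σ a) = c' * d a (σ a) := by
    unfold he; rw [if_neg hna, h.involutive, hd.symm]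
  simp only at hs
  rw [hfo, hhe] at hs
  have h1 : d a (fo A σ x.1) ≤ R := by
    refine le_trans (Real.le_sqrt_of_sq_le ?_) hs
    nlinarith [sq_nonneg (d' z0 x.2), sq_nonneg (c' * d a (σ a) - he d A σ c x.1)]
  have h2 : |c' * d a (σ a) - he d A σ c x.1| ≤ R := by
    refine le_trans (Real.le_sqrt_of_sq_le ?_) hs
    rw [sq_abs]
    nlinarith [sq_nonneg (d' z0 x.2), sq_nonneg (d a (fo A σ x.1))]
  have h3 := he_le h hd hc x.1
  have h4 := disp_lip hd h (fo A σ x.1) a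
  rw [hd.symm (fo A σ x.1) a] at h4
  have h5 := (abs_le.1 h4).2
  have h6 := (abs_le.1 h2).2
  rw [div_lt_iff₀ (by linarith)] at hdR
  nlinarith

theorem lineDist_symm (hd : IsMetric d) (hd' : IsMetric d') (p q : (Y × Z) × ℝ) :
    lineDist (prodDist d d') p q = lineDist (prodDist d d') q p := by
  unfold lineDist prodDist
  rw [hd.symm, hd'.symm]
  congr 1
  ring

theorem manyEmbeddings_prod (hd : IsMetric d) (h : IsReflection d A σ) (hd' : IsMetric d')
    [Nonempty Z] : ManyEmbeddings (prodDist d d') := by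
  refine ⟨ff d A σ Z, fun c hc => isQI_ff hd h hc, fun c _ g => not_graph hd h c g, ?_⟩
  rintro c c' hc hc' hne ⟨R, h1, h2⟩
  rcases lt_or_gt_of_ne hne with hlt | hlt
  · exact not_close_aux hd h hc hlt R h2
  · exact not_close_aux hd h hc' hlt R h1

end fold

/-! ## Transport to the space itself -/

theorem ManyEmbeddings.transport {X : Type u} {X' : Type v} {d : X → X → ℝ} {d' : X' → X' → ℝ}
    (e : X ≃ X') (he : ∀ x y, d' (e x) (e y) = d x y) (h : ManyEmbeddings d') :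
    ManyEmbeddings d := by
  obtain ⟨f, h1, h2, h3⟩ := h
  have hl : ∀ p q : X' × ℝ, lineDist d (e.symm p.1, p.2) (e.symm q.1, q.2) = lineDist d' p q := by
    intro p q
    unfold lineDist
    simp only
    rw [← he, e.apply_symm_apply, e.apply_symm_apply]
  refine ⟨fun c x => (e.symm (f c (e x)).1, (f c (e x)).2), ?_, ?_, ?_⟩
  · intro c hc
    obtain ⟨L, C, hL, hC, hf⟩ := h1 c hc
    refine ⟨L, C, hL, hC, fun a a' => ?_⟩
    have := hf (e a) (e a')
    rw [he] at this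
    simp only
    rw [hl]
    exact this
  · rintro c hc g ⟨R, ha, hb⟩
    refine h2 c hc (fun x' => g (e.symm x')) ⟨R, ?_, ?_⟩
    · rintro s ⟨x', rfl⟩
      obtain ⟨t, ht, hst⟩ := ha _ ⟨e.symm x', rfl⟩
      refine ⟨(e t.1, t.2), ?_, ?_⟩
      · show t.2 = g (e.symm (e t.1))
        rw [e.symm_apply_apply]
        exact ht
      · rw [← hl]
        simp only [e.symm_apply_apply, e.apply_symm_apply] at hst ⊢
        exact hst
    · rintro t ht
      obtain ⟨s, ⟨x, rfl⟩, hs⟩ := hb (e.symm t.1, t.2) ht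
      refine ⟨f c (e x), ⟨e x, rfl⟩, ?_⟩
      rw [← hl]
      exact hs
  · rintro c c' hc hc' hne ⟨R, ha, hb⟩
    refine h3 c c' hc hc' hne ⟨R, ?_, ?_⟩
    · rintro s ⟨x', rfl⟩
      obtain ⟨t, ⟨y, rfl⟩, hst⟩ := ha _ ⟨e.symm x', rfl⟩
      refine ⟨f c' (e y), ⟨e y, rfl⟩, ?_⟩
      rw [← hl]
      simp only [e.apply_symm_apply] at hst ⊢
      exact hst
    · rintro s ⟨x', rfl⟩
      obtain ⟨t, ⟨y, rfl⟩, hst⟩ := hb _ ⟨e.symm x', rfl⟩
      refine ⟨f c (e y), ⟨e y, rfl⟩, ?_⟩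
      rw [← hl]
      simp only [e.apply_symm_apply] at hst ⊢
      exact hst

theorem isMetric_unit : IsMetric (fun _ _ : PUnit.{1} => (0 : ℝ)) :=
  ⟨fun x y => by simp, fun _ _ => rfl, fun _ _ _ => by simp⟩

theorem manyEmbeddings_self {Y : Type u} {d : Y → Y → ℝ} {A : Set Y} {σ : Y → Y} (hd : IsMetric d)
    (h : IsReflection d A σ) : ManyEmbeddings d := by
  refine (manyEmbeddings_prod hd h isMetric_unit).transport (Equiv.prodPUnit Y).symm ?_
  intro x y
  show √(d x y ^ 2 + 0 ^ 2) = d x y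
  rw [zero_pow two_ne_zero, add_zero, Real.sqrt_sq (hd.nonneg x y)]

/-! ## Hyperbolic space -/

section hyp

/-- the distance as a function of three numbers -/
noncomputable def hd3 (r s t : ℝ) : ℝ :=
  2 * Real.arsinh (√(r ^ 2 + (s - t) ^ 2) / (2 * √(s * t)))

theorem hd3_mono {r r' : ℝ} (s t : ℝ) (hr : 0 ≤ r) (h : r ≤ r') : hd3 r s t ≤ hd3 r' s t := by
  unfold hd3
  have h1 : r ^ 2 ≤ r' ^ 2 := pow_le_pow_left₀ hr h 2
  have h2 : √(r ^ 2 + (s - t) ^ 2) ≤ √(r' ^ 2 + (s - t) ^ 2) :=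
    Real.sqrt_le_sqrt (by linarith)
  have h3 : √(r ^ 2 + (s - t) ^ 2) / (2 * √(s * t)) ≤ √(r' ^ 2 + (s - t) ^ 2) / (2 * √(s * t)) :=
    div_le_div_of_nonneg_right h2 (by positivity)
  linarith [Real.arsinh_le_arsinh.2 h3]

/-- a point of the upper half-plane -/
noncomputable def pt (x s : ℝ) (hs : 0 < s) : UpperHalfPlane := ⟨⟨x, s⟩, hs⟩

theorem dist_pt (x y s t : ℝ) (hs : 0 < s) (ht : 0 < t) :
    dist (pt x s hs) (pt y t ht) = hd3 (x - y) s t := by
  rw [UpperHalfPlane.dist_eq, Complex.dist_eq_re_im]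
  rfl

theorem hd3_tri {r r' r'' s t u : ℝ} (hs : 0 < s) (ht : 0 < t) (hu : 0 < u) (h0 : 0 ≤ r'')
    (h : r'' ≤ r + r') : hd3 r'' s u ≤ hd3 r s t + hd3 r' t u := by
  refine (hd3_mono s u h0 h).trans ?_
  have h1 := dist_triangle (pt (r + r') s hs) (pt r' t ht) (pt 0 u hu)
  rw [dist_pt, dist_pt, dist_pt] at h1
  simpa using h1

theorem hd3_eq_zero {r s t : ℝ} (hs : 0 < s) (ht : 0 < t) :
    hd3 r s t = 0 ↔ r = 0 ∧ s = t := by
  have h1 : hd3 r s t = dist (pt r s hs) (pt 0 t ht) := by rw [dist_pt, sub_zero]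
  rw [h1, dist_eq_zero]
  constructor
  · intro h
    have h2 := congrArg UpperHalfPlane.re h
    have h3 := congrArg UpperHalfPlane.im h
    exact ⟨h2, h3⟩
  · rintro ⟨rfl, rfl⟩
    rfl

variable {E : Type u} [NormedAddCommGroup E]

theorem hypDist_eq (p q : E × Set.Ioi (0 : ℝ)) : hypDist p q = hd3 ‖p.1 - q.1‖ p.2 q.2 := rfl

theorem isMetric_hypDist : IsMetric (hypDist (E := E)) := by
  refine ⟨fun p q => ?_, fun p q => ?_, fun p q r => ?_⟩
  · rw [hypDist_eq, hd3_eq_zero p.2.2 q.2.2, norm_eq_zero, sub_eq_zero, Prod.ext_iff,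
      Subtype.ext_iff]
  · unfold hypDist
    rw [norm_sub_rev, mul_comm (p.2 : ℝ) q.2]
    congr 4
    ring
  · rw [hypDist_eq, hypDist_eq, hypDist_eq]
    refine hd3_tri p.2.2 q.2.2 r.2.2 (norm_nonneg _) ?_
    have : p.1 - r.1 = (p.1 - q.1) + (q.1 - r.1) := by abel
    rw [this]
    exact norm_add_le _ _

variable [InnerProductSpace ℝ E]

/-- the reflection of `E` in the hyperplane orthogonal to `v` -/
noncomputable def rf (v x : E) : E := x - (2 * ⟪v, x⟫_ℝ) • v

theorem rf_sub (v x y : E) : rf v x - rf v y = rf v (x - y) := by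
  unfold rf
  rw [inner_sub_right, mul_sub, sub_smul]
  abel

theorem norm_rf {v : E} (hv : ‖v‖ = 1) (x : E) : ‖rf v x‖ = ‖x‖ := by
  have h1 : ‖rf v x‖ ^ 2 = ‖x‖ ^ 2 := by
    unfold rf
    rw [norm_sub_sq_real, inner_smul_right, norm_smul, hv, mul_one, Real.norm_eq_abs, sq_abs,
      real_inner_comm]
    ring
  exact (pow_left_inj₀ (norm_nonneg _) (norm_nonneg _) two_ne_zero).1 h1

theorem rf_rf {v : E} (hv : ‖v‖ = 1) (x : E) : rf v (rf v x) = x := by
  unfold rf
  rw [inner_sub_right, inner_smul_right, real_inner_self_eq_norm_sq, hv]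
  have : 2 * (⟪v, x⟫_ℝ - 2 * ⟪v, x⟫_ℝ * 1 ^ 2) = -(2 * ⟪v, x⟫_ℝ) := by ring
  rw [this, neg_smul]
  abel

theorem fold_rf {v : E} (hv : ‖v‖ = 1) {x y : E} (hx : 0 ≤ ⟪v, x⟫_ℝ) (hy : 0 ≤ ⟪v, y⟫_ℝ) :
    ‖x - y‖ ≤ ‖x - rf v y‖ := by
  have h1 : ‖x - y‖ ^ 2 ≤ ‖x - rf v y‖ ^ 2 := by
    rw [norm_sub_sq_real, norm_sub_sq_real, norm_rf hv]
    unfold rf
    rw [inner_sub_right, inner_smul_right, real_inner_comm v x]
    nlinarith [mul_nonneg hx hy]
  exact (pow_le_pow_iff_left₀ (norm_nonneg _) (norm_nonneg _) two_ne_zero).1 h1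

theorem isReflection_hyp {v : E} (hv : ‖v‖ = 1) :
    IsReflection (hypDist (E := E)) {p | 0 ≤ ⟪v, p.1⟫_ℝ} (fun p => (rf v p.1, p.2)) := by
  refine ⟨fun p q => ?_, fun p => ?_, fun p => ?_, fun p hp q hq => ?_, fun R => ?_⟩
  · rw [hypDist_eq, hypDist_eq]
    simp only
    rw [rf_sub, norm_rf hv]
  · simp only [rf_rf hv]
  · by_cases h : 0 ≤ ⟪v, p.1⟫_ℝ
    · exact Or.inl h
    · right
      show 0 ≤ ⟪v, rf v p.1⟫_ℝ
      unfold rf
      rw [inner_sub_right, inner_smul_right, real_inner_self_eq_norm_sq, hv]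
      linarith [not_le.1 h]
  · rw [hypDist_eq, hypDist_eq]
    exact hd3_mono _ _ (norm_nonneg _) (fold_rf hv hp hq)
  · obtain ⟨n, hn⟩ := exists_nat_gt (Real.sinh (R / 2))
    refine ⟨((n : ℝ) • v, ⟨1, Set.mem_Ioi.2 one_pos⟩), ?_, ?_⟩
    · show 0 ≤ ⟪v, (n : ℝ) • v⟫_ℝ
      rw [inner_smul_right, real_inner_self_eq_norm_sq, hv]
      positivity
    · rw [hypDist_eq]
      simp only
      have h1 : (n : ℝ) • v - rf v ((n : ℝ) • v) = (2 * (n : ℝ)) • v := by
        unfold rf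
        rw [inner_smul_right, real_inner_self_eq_norm_sq, hv]
        rw [sub_sub_cancel]
        congr 1
        ring
      rw [h1, norm_smul, hv, mul_one, Real.norm_eq_abs, abs_of_nonneg (by positivity)]
      unfold hd3
      rw [sub_self, zero_pow two_ne_zero, add_zero, Real.sqrt_sq (by positivity), mul_one,
        Real.sqrt_one, mul_one, mul_div_cancel_left₀ _ (two_ne_zero)]
      have h2 : R / 2 < Real.arsinh n := by
        rw [← Real.arsinh_sinh (R / 2)]; exact Real.arsinh_lt_arsinh.2 hn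
      linarith

end hyp

/-- **Folded embeddings.** (1) If the metric space `Y` has a reflection, then `Y`, and `Y × Z` for
every metric space `Z`, has a continuum of quasi-isometric embeddings into its product with the line
whose images are at infinite Hausdorff distance from each other and from the graphs of all
functions. (2) This is the case for the real hyperbolic space over every real inner product space
`E ≠ 0`, and for its products with all metric spaces; (3) the upper half-space over `E = ℝ` is the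
hyperbolic plane of Mathlib. -/
theorem result :
    (∀ (Y : Type u) (d : Y → Y → ℝ) (A : Set Y) (σ : Y → Y), IsMetric d → IsReflection d A σ →
      ManyEmbeddings d ∧ ∀ (Z : Type v) (d' : Z → Z → ℝ), Nonempty Z → IsMetric d' →
        ManyEmbeddings (prodDist d d')) ∧
    (∀ (E : Type u) [NormedAddCommGroup E] [InnerProductSpace ℝ E] [Nontrivial E],
      IsMetric (hypDist (E := E)) ∧ ManyEmbeddings (hypDist (E := E)) ∧
      ∀ (Z : Type v) (d' : Z → Z → ℝ), Nonempty Z → IsMetric d' →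
        ManyEmbeddings (prodDist (hypDist (E := E)) d')) ∧
    ∀ z w : UpperHalfPlane, dist z w =
      hypDist (E := ℝ) (z.re, ⟨z.im, z.im_pos⟩) (w.re, ⟨w.im, w.im_pos⟩) := by
  refine ⟨fun Y d A σ hd h => ⟨manyEmbeddings_self hd h, fun Z d' hZ hd' =>
    manyEmbeddings_prod hd h hd'⟩, ?_, ?_⟩
  · intro E _ _ _
    obtain ⟨w, hw⟩ := exists_ne (0 : E)
    have hv : ‖(‖w‖⁻¹ • w)‖ = 1 := by
      rw [norm_smul, norm_inv, norm_norm]
      exact inv_mul_cancel₀ (norm_ne_zero_iff.2 hw)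
    exact ⟨isMetric_hypDist, manyEmbeddings_self isMetric_hypDist (isReflection_hyp hv),
      fun Z d' hZ hd' => manyEmbeddings_prod isMetric_hypDist (isReflection_hyp hv) hd'⟩
  · intro z w
    rw [UpperHalfPlane.dist_eq, Complex.dist_eq_re_im]
    unfold hypDist
    simp only [Real.norm_eq_abs, sq_abs, UpperHalfPlane.coe_re, UpperHalfPlane.coe_im]

end Pool.Agent.Results.MP_44e237_gt.EveryHyperbolicSpace
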